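import Pool.Agent.H82.PRP.Stmts

/-!
# ACY: coinduced modules are acyclic
-/

namespace Pool.Agent.H82.PRP

open Filter Topology

namespace ACY

theorem contract_zero {G : Type} [Mul G] (n : ℕ) (x : G) (g : Fin (n + 1) → G) :
    Fin.contractNth 0 (· * ·) (Fin.cons x g : Fin (n + 2) → G) =
      Fin.cons (x * g 0) (fun i => g i.succ) := by
  funext k
  refine Fin.cases ?_ (fun i => ?_) k
  · rw [Fin.contractNth_apply_of_eq _ _ _ _ rfl]
    simp
  · rw [Fin.contractNth_apply_of_gt _ _ _ _ (by simp)]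
    simp

theorem contract_succ {G : Type} [Mul G] (n : ℕ) (x : G) (g : Fin (n + 1) → G) (j : Fin (n + 1)) :
    Fin.contractNth j.succ (· * ·) (Fin.cons x g : Fin (n + 2) → G) =
      Fin.cons x (Fin.contractNth j (· * ·) g) := by
  funext k
  refine Fin.cases ?_ (fun i => ?_) k
  · rw [Fin.contractNth_apply_of_lt _ _ _ _ (by simp)]
    simp
  · simp only [Fin.cons_succ]
    rcases lt_trichotomy (i : ℕ) j with h | h | h
    · rw [Fin.contractNth_apply_of_lt _ _ _ _ (by simpa using h),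
        Fin.contractNth_apply_of_lt _ _ _ _ h]
      rw [← Fin.succ_castSucc, Fin.cons_succ]
    · rw [Fin.contractNth_apply_of_eq _ _ _ _ (by simpa using h),
        Fin.contractNth_apply_of_eq _ _ _ _ h]
      rw [← Fin.succ_castSucc, Fin.cons_succ, Fin.cons_succ]
    · rw [Fin.contractNth_apply_of_gt _ _ _ _ (by simpa using h),
        Fin.contractNth_apply_of_gt _ _ _ _ h]
      rw [Fin.cons_succ]

end ACY

/-- ACY -/
theorem acy_thm : ACYStmt := by
  intro p G V _ _ _ _ _ _ n f hf hdf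
  have hc : Continuous (fun z : G × (Fin n → G) => (Fin.cons z.1⁻¹ z.2 : Fin (n + 1) → G)) := by
    refine continuous_pi fun k => ?_
    refine Fin.cases ?_ (fun i => ?_) k
    · simp only [Fin.cons_zero]
      fun_prop
    · simp only [Fin.cons_succ]
      fun_prop
  have hF : IsLocallyConstant (fun z : G × (Fin n → G) =>
      (f (Fin.cons z.1⁻¹ z.2)).1 1) := by
    have h1 : IsLocallyConstant (fun z : G × (Fin n → G) => f (Fin.cons z.1⁻¹ z.2)) :=
      hf.comp_continuous hc
    exact h1.comp (fun v : LC p G V => v.1 1)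
  let h : (Fin n → G) → LC p G V := fun g =>
    ⟨fun x => (f (Fin.cons x⁻¹ g)).1 1, by
      have h2 : Continuous (fun x : G => (x, g)) := by fun_prop
      exact hF.comp_continuous h2⟩
  refine ⟨h, ?_, ?_⟩
  · rw [IsLocallyConstant.iff_eventually_eq]
    intro g₀
    have h3 : ∀ x : G, ∀ᶠ z : G × (Fin n → G) in 𝓝 (x, g₀),
        (f (Fin.cons z.1⁻¹ z.2)).1 1 = (f (Fin.cons z.1⁻¹ g₀)).1 1 := by
      intro x
      have h4 := (IsLocallyConstant.iff_eventually_eq _).1 hF (x, g₀)
      have h5 : Continuous (fun z : G × (Fin n → G) => (z.1, g₀)) := by fun_prop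
      have h6 : ∀ᶠ z : G × (Fin n → G) in 𝓝 (x, g₀),
          (f (Fin.cons z.1⁻¹ g₀)).1 1 = (f (Fin.cons x⁻¹ g₀)).1 1 :=
        (h5.tendsto (x, g₀)).eventually h4
      filter_upwards [h4, h6] with z hz1 hz2
      rw [hz1, hz2]
    have h7 : ∀ᶠ g in 𝓝 g₀, ∀ x : G, (f (Fin.cons x⁻¹ g)).1 1 = (f (Fin.cons x⁻¹ g₀)).1 1 := by
      have h8 := (isCompact_univ (X := G)).eventually_forall_of_forall_eventually
        (x₀ := g₀) (P := fun g x => (f (Fin.cons x⁻¹ g)).1 1 = (f (Fin.cons x⁻¹ g₀)).1 1) ?_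
      · filter_upwards [h8] with g hg x
        exact hg x (Set.mem_univ x)
      · intro x _
        have h9 := h3 x
        have h10 : Tendsto (fun z : (Fin n → G) × G => (z.2, z.1)) (𝓝 (g₀, x)) (𝓝 (x, g₀)) :=
          (continuous_swap).tendsto (g₀, x)
        exact h10.eventually h9
    filter_upwards [h7] with g hg
    apply Subtype.ext
    funext x
    exact hg x
  · funext g
    apply Subtype.ext
    funext x
    have h1 := congrFun hdf (Fin.cons x⁻¹ g)
    have h2 := congrFun (congrArg Subtype.val h1) 1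
    simp only [dM, Fin.sum_univ_succ (n := n + 1), ACY.contract_zero, ACY.contract_succ] at h2
    simp only [dM]
    have e1 : ∀ (a b : LC p G V) (y : G), (a + b).1 y = a.1 y + b.1 y := fun _ _ _ => rfl
    have e2 : ∀ (c : ZMod p) (a : LC p G V) (y : G), (c • a).1 y = c • a.1 y := fun _ _ _ => rfl
    have e3 : ∀ (k : ℕ) (a : Fin k → LC p G V) (y : G), (∑ i, a i).1 y = ∑ i, (a i).1 y := by
      intro k a y
      simp
    have e4 : ∀ (u : G) (a : LC p G V) (y : G), (lrep p G V u a).1 y = a.1 (u⁻¹ * y) :=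
      fun _ _ _ => rfl
    have e5 : ∀ (a : Fin n → G) (y : G), (h a).1 y = (f (Fin.cons y⁻¹ a)).1 1 := fun _ _ => rfl
    have e6 : (fun i : Fin (n + 1) => (Fin.cons x⁻¹ g : Fin (n + 2) → G) i.succ) = g := by
      funext i
      simp
    rw [e6] at h2
    simp only [e1, e2, e3, e4, e5, Fin.cons_zero, inv_inv, mul_one, Fin.val_zero, zero_add,
      pow_one, mul_inv_rev, Fin.val_succ] at h2 ⊢
    have h3 : (f g).1 x = (f (Fin.cons (x⁻¹ * g 0) fun i => g i.succ)).1 1 +
        ∑ j : Fin (n + 1), (-1 : ZMod p) ^ ((j : ℕ) + 1) •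
          (f (Fin.cons x⁻¹ (j.contractNth (fun x1 x2 => x1 * x2) g))).1 1 := by
      have h4 : (0 : V) = (f g).1 x + ((-1 : ZMod p) • (f (Fin.cons (x⁻¹ * g 0) fun i => g i.succ)).1 1
          + ∑ j : Fin (n + 1), (-1 : ZMod p) ^ ((j : ℕ) + 1 + 1) •
          (f (Fin.cons x⁻¹ (j.contractNth (fun x1 x2 => x1 * x2) g))).1 1) := by
        rw [h2]
        rfl
      have h5 : ∀ j : Fin (n + 1), (-1 : ZMod p) ^ ((j : ℕ) + 1 + 1) •
          (f (Fin.cons x⁻¹ (j.contractNth (fun x1 x2 => x1 * x2) g))).1 1 =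
          - ((-1 : ZMod p) ^ ((j : ℕ) + 1) •
          (f (Fin.cons x⁻¹ (j.contractNth (fun x1 x2 => x1 * x2) g))).1 1) := by
        intro j
        rw [pow_succ (-1 : ZMod p) ((j : ℕ) + 1), mul_neg_one, neg_smul]
      rw [Finset.sum_congr rfl fun j _ => h5 j, Finset.sum_neg_distrib, neg_smul, one_smul,
        ← neg_add, ← sub_eq_add_neg] at h4
      exact (sub_eq_zero.1 h4.symm)
    rw [h3]

end Pool.Agent.H82.PRP
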