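import Pool.Agent.H82.PRP.Stmts

/-!
# DD: the differential of inhomogeneous cochains squares to zero
-/

namespace Pool.Agent.H82.PRP

open Filter Topology

/-- DD -/
theorem dd_thm : DDStmt := by
  intro p G V _ _ _ ρ n f
  have h := groupCohomology.inhomogeneousCochains.d_comp_d (k := ZMod p) (n := n) (Rep.of ρ)
  have h2 := congrArg (fun φ => φ.hom f) h
  simp only [ModuleCat.hom_comp, LinearMap.comp_apply] at h2
  funext g
  have h3 := congrFun h2 g
  simp only [inhomogeneousCochains.d_hom_apply] at h3
  exact h3

end Pool.Agent.H82.PRP
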